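import Pool.Agent.N20.EN.Stm
import Pool.Agent.Y286.NV.Fin

/-!
# Project EN (helper20), part CONV: the case `M = K` is Navarro's equality
-/

set_option autoImplicit false

open scoped Classical BigOperators

noncomputable section

namespace Pool.Agent.N285.ENCONV

open Pool.Agent.Y63.NV
open Pool.Agent.Y63.KR
open Pool.Agent.Y63.AWC (IsIrreducibleCharacter pSubgroupSetoid ConjugateSubgroups)
open Pool.Agent.N20.EN
open Pool.Agent.Y286.NV (nE nE_coe mem_conj isWt_comp centralValue_comp irr_class sup_conj)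
open Pool.Agent.Helper884.IC (IsIrrChar irr_finite)

/-! ### Characters -/

section chars

variable {F : Type} [Field F] {K : Type} [Group K]

omit [Field F] in
/-- conjugate invariant characters are equal -/
theorem cj_eq {G : Subgroup K} [hG : G.Normal] {φ φ' : G → F} (h : IsInvUnder ⊤ φ) {k : K}
    (hk : CjF k φ φ') : φ = φ' := by
  funext y
  have hm : k⁻¹ * (y : K) * k ∈ G := by
    have := hG.conj_mem (y : K) y.2 k⁻¹
    rwa [_root_.inv_inv] at this
  have e : (y : K) = k * ((⟨k⁻¹ * (y : K) * k, hm⟩ : G) : K) * k⁻¹ := by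
    show (y : K) = k * (k⁻¹ * (y : K) * k) * k⁻¹
    group
  have h1 := h k (Subgroup.mem_top k) ⟨k⁻¹ * (y : K) * k, hm⟩ y e
  have h2 := hk ⟨k⁻¹ * (y : K) * k, hm⟩ y e
  exact h1.trans h2.symm

theorem orbI_eq (G : Subgroup K) [G.Normal] (B : (G → F) → F) : orbI ⊤ G B = numIBr G B := by
  refine Nat.card_congr (β := IBM ⊤ G B)
    { toFun := Quot.lift (fun φ => φ) (fun φ φ' h => ?_)
      invFun := Quot.mk _
      left_inv := fun q => ?_
      right_inv := fun φ => rfl }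
  · obtain ⟨k, hk⟩ := h
    exact Subtype.ext (cj_eq φ.2.2.1 hk)
  · induction q using Quot.ind
    rfl

end chars

/-! ### Weights -/

section wts

variable (p : ℕ) {F : Type} [Field F] (red : integralClosure ℤ ℂ →+* F) {K : Type} [Group K]
  (G : Subgroup K) (B : (G → F) → F)

/-- the characters counted by `numDz` -/
def TT (Q : Subgroup K) : Type :=
  {χ : Subgroup.normalizer (Q : Set K) → ℂ //
    IsWt p (Q.subgroupOf (Subgroup.normalizer (Q : Set K))) χ ∧
    ∀ z : K → F, InZ G z → centralValue red χ (fun x => z x) = B (fun x : G => z x)}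

/-- the condition for the subgroup `J` -/
def PP (Q J : Subgroup K) (θ : J → ℂ) : Prop :=
  IsWt p (Q.subgroupOf J) θ ∧
    ∀ z : K → F, InZ G z → centralValue red θ (fun x => z x) = B (fun x : G => z x)

theorem pp_congr {Q J J' : Subgroup K} (h : J = J') (θ : J → ℂ) :
    PP p red G B Q J θ ↔ PP p red G B Q J' (fun x => θ ⟨x.1, h ▸ x.2⟩) := by
  subst h
  exact Iff.rfl

theorem top_inf (Q : Subgroup K) : Subgroup.normalizer (Q : Set K) =
    ⊤ ⊓ Subgroup.normalizer (Q : Set K) := (top_inf_eq _).symm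

theorem inZM_iff {z : K → F} : InZM ⊤ G z ↔ InZ G z :=
  ⟨fun h => ⟨fun g x => h.1 g (Subgroup.mem_top g) x, h.2⟩, fun h => ⟨fun g _ x => h.conj g x, h.supp⟩⟩

/-- the pairs of a class -/
def toN (q : Quotient (pSubgroupSetoid p K)) (hq : G ⊔ q.out.1 = ⊤) (ξ : TT p red G B q.out.1) :
    NWp p red ⊤ G B :=
  ⟨⟨q.out.1, fun x => ξ.1 ⟨x.1, x.2.2⟩⟩, q.out.2, hq,
    ((pp_congr p red G B (top_inf q.out.1) ξ.1).1 ξ.2).1,
    fun z hz => ((pp_congr p red G B (top_inf q.out.1) ξ.1).1 ξ.2).2 z ((inZM_iff G).1 hz)⟩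

/-- conjugacy of pairs -/
def rel (s s' : NWp p red ⊤ G B) : Prop :=
  ∃ k : K, s'.1.1 = conjSub k s.1.1 ∧
    ∀ (x : ↥((⊤ : Subgroup K) ⊓ Subgroup.normalizer (s.1.1 : Set K)))
      (y : ↥((⊤ : Subgroup K) ⊓ Subgroup.normalizer (s'.1.1 : Set K))),
      (y : K) = k * x * k⁻¹ → s'.1.2 y = s.1.2 x

theorem nmem {Q Q' : Subgroup K} {k : K} (h : Q' = conjSub k Q) {x : K}
    (hx : x ∈ Subgroup.normalizer (Q : Set K)) :
    k * x * k⁻¹ ∈ Subgroup.normalizer (Q' : Set K) := by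
  subst h
  exact (nE k Q ⟨x, hx⟩).2

theorem rel_equiv : Equivalence (rel p red G B) := by
  refine ⟨fun s => ?_, fun {s s'} h => ?_, fun {s s' s''} h h' => ?_⟩
  · refine ⟨1, (conjSub_one _).symm, fun x y hxy => ?_⟩
    have : y = x := Subtype.ext (by rw [hxy]; group)
    rw [this]
  · obtain ⟨k, h1, h2⟩ := h
    refine ⟨k⁻¹, ?_, fun x y hxy => ?_⟩
    · rw [h1, ← conjSub_mul, inv_mul_cancel, conjSub_one]
    · exact (h2 y x (by rw [hxy]; group)).symm
  · obtain ⟨k, h1, h2⟩ := h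
    obtain ⟨k', h1', h2'⟩ := h'
    refine ⟨k' * k, ?_, fun x y hxy => ?_⟩
    · rw [h1', h1, ← conjSub_mul]
    · have hz : k * (x : K) * k⁻¹ ∈
          (⊤ : Subgroup K) ⊓ Subgroup.normalizer (s'.1.1 : Set K) :=
        ⟨Subgroup.mem_top _, nmem h1 x.2.2⟩
      have e1 := h2 x ⟨_, hz⟩ rfl
      have e2 := h2' ⟨_, hz⟩ y (by
        rw [hxy]
        show _ = k' * (k * (x : K) * k⁻¹) * k'⁻¹
        group)
      exact e2.trans e1

/-- the classes of pairs as pairs of a class -/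
abbrev WW : Type := {w : Σ q : Quotient (pSubgroupSetoid p K), TT p red G B q.out.1 //
  G ⊔ w.1.out.1 = ⊤}

/-- the map -/
def Phi (w : WW p red G B) : Quot (rel p red G B) := Quot.mk _ (toN p red G B w.1.1 w.2 w.1.2)

theorem phi_inj [Finite K] : Function.Injective (Phi p red G B) := by
  rintro ⟨⟨q, ξ⟩, hq⟩ ⟨⟨q', ξ'⟩, hq'⟩ h
  obtain ⟨k, h1, h2⟩ := Quotient.exact (s := ⟨rel p red G B, rel_equiv p red G B⟩) h
  change q'.out.1 = conjSub k q.out.1 at h1
  have hqq : q = q' := by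
    rw [← Quotient.out_equiv_out]
    exact ⟨k, h1⟩
  subst hqq
  have hn : k ∈ Subgroup.normalizer (q.out.1 : Set K) := by
    rw [Subgroup.mem_normalizer_iff]
    intro z
    conv_rhs => rw [h1]
    exact mem_conj.symm
  have hx : ξ = ξ' := by
    apply Subtype.ext
    funext y
    have hz : k * (y : K) * k⁻¹ ∈ Subgroup.normalizer (q.out.1 : Set K) :=
      mul_mem (mul_mem hn y.2) (inv_mem hn)
    have h3 := h2 ⟨y.1, Subgroup.mem_top _, y.2⟩ ⟨k * (y : K) * k⁻¹, Subgroup.mem_top _, hz⟩ rfl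
    change ξ'.1 ⟨k * (y : K) * k⁻¹, hz⟩ = ξ.1 ⟨y.1, y.2⟩ at h3
    have h4 : IsConj y (⟨k * (y : K) * k⁻¹, hz⟩ : Subgroup.normalizer (q.out.1 : Set K)) := by
      rw [isConj_iff]
      exact ⟨⟨k, hn⟩, Subtype.ext rfl⟩
    rw [irr_class ξ'.2.1.irr _ _ h4]
    exact h3.symm
  subst hx
  rfl

theorem phi_surj [Finite K] [G.Normal] : Function.Surjective (Phi p red G B) := by
  intro s
  induction s using Quot.ind with
  | mk s =>
  obtain ⟨⟨Q, θ⟩, hp, hG, hwt, hval⟩ := s
  obtain ⟨q, g, hg⟩ : ∃ q : Quotient (pSubgroupSetoid p K), ∃ g : K,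
      Q = q.out.1.map (MulAut.conj g).toMonoidHom := by
    refine ⟨Quotient.mk _ ⟨Q, hp⟩, ?_⟩
    have h1 : (pSubgroupSetoid p K).r (Quotient.mk (pSubgroupSetoid p K) ⟨Q, hp⟩).out ⟨Q, hp⟩ :=
      Quotient.mk_out (s := pSubgroupSetoid p K) _
    exact h1
  subst hg
  change G ⊔ q.out.1.map (MulAut.conj g).toMonoidHom = ⊤ at hG
  have hq : G ⊔ q.out.1 = ⊤ := (sup_conj G g q.out.1).1 hG
  have e0 : ∀ x : Subgroup.normalizer (q.out.1 : Set K), g * (x : K) * g⁻¹ ∈ (⊤ : Subgroup K) ⊓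
      Subgroup.normalizer ((q.out.1.map (MulAut.conj g).toMonoidHom : Subgroup K) : Set K) :=
    fun x => ⟨Subgroup.mem_top _, (nE g q.out.1 x).2⟩
  obtain ⟨e, he⟩ : ∃ e : Subgroup.normalizer (q.out.1 : Set K) ≃* ↥((⊤ : Subgroup K) ⊓
      Subgroup.normalizer ((q.out.1.map (MulAut.conj g).toMonoidHom : Subgroup K) : Set K)),
      ∀ x, e x = ⟨g * (x : K) * g⁻¹, e0 x⟩ :=
    ⟨(nE g q.out.1).trans (MulEquiv.subgroupCongr (top_inf _)), fun x => rfl⟩
  have hQ : ∀ x : Subgroup.normalizer (q.out.1 : Set K),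
      x ∈ q.out.1.subgroupOf (Subgroup.normalizer (q.out.1 : Set K)) ↔
      e x ∈ (q.out.1.map (MulAut.conj g).toMonoidHom).subgroupOf ((⊤ : Subgroup K) ⊓
        Subgroup.normalizer ((q.out.1.map (MulAut.conj g).toMonoidHom : Subgroup K) : Set K)) := by
    intro x
    rw [Subgroup.mem_subgroupOf, Subgroup.mem_subgroupOf, he]
    exact mem_conj.symm
  refine ⟨⟨⟨q, fun x => θ (e x), isWt_comp e hQ hwt, fun z hz => ?_⟩, hq⟩, ?_⟩
  · have h1 := centralValue_comp red e θ (irr_class hwt.irr) (fun y => z y)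
      (fun a b => hz.conj a b)
    have h2 : (fun x : Subgroup.normalizer (q.out.1 : Set K) => z (e x : K)) =
        fun x : Subgroup.normalizer (q.out.1 : Set K) => z (x : K) := by
      funext x
      rw [he]
      exact hz.conj g x
    change centralValue red (fun x => θ (e x)) (fun x => z (e x : K)) = _ at h1
    rw [h2] at h1
    rw [h1]
    exact hval z ((inZM_iff G).2 hz)
  · refine Quot.sound ⟨g, rfl, fun x y hxy => ?_⟩
    show θ y = θ (e ⟨x.1, x.2.2⟩)
    rw [he]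
    exact congrArg θ (Subtype.ext hxy)

theorem card_sig {A : Type} [Finite A] (T : A → Type) [∀ a, Finite (T a)]
    (P : (Σ a, T a) → Prop) : Nat.card {s : Σ a, T a // P s} =
      ∑ᶠ a, Nat.card {t : T a // P ⟨a, t⟩} := by
  have : Fintype A := Fintype.ofFinite A
  have : ∀ a, Fintype (T a) := fun a => Fintype.ofFinite (T a)
  rw [finsum_eq_sum_of_fintype, ← Nat.card_sigma]
  refine Nat.card_congr
    { toFun := fun s => ⟨s.1.1, ⟨s.1.2, s.2⟩⟩
      invFun := fun s => ⟨⟨s.1, s.2.1⟩, s.2.2⟩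
      left_inv := fun s => rfl
      right_inv := fun s => rfl }

theorem fin_TT [Finite K] (Q : Subgroup K) : Finite (TT p red G B Q) := by
  have hfin : Finite {χ : Subgroup.normalizer (Q : Set K) → ℂ // IsIrreducibleCharacter χ} := by
    have : Fintype (Subgroup.normalizer (Q : Set K)) := Fintype.ofFinite _
    exact (irr_finite (G := Subgroup.normalizer (Q : Set K))).to_subtype
  refine Finite.of_injective (β := {χ : Subgroup.normalizer (Q : Set K) → ℂ //
    IsIrreducibleCharacter χ}) (fun χ => ⟨χ.1, χ.2.1.irr⟩) fun χ χ' h => ?_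
  have h' := congrArg Subtype.val h
  exact Subtype.ext h'

theorem orbN_eq [Finite K] [G.Normal] : orbN p red ⊤ G B =
    ∑ᶠ c : Quotient (pSubgroupSetoid p K),
      if G ⊔ c.out.1 = ⊤ then numDz p red G c.out.1 B else 0 := by
  have h1 : orbN p red ⊤ G B = Nat.card (Quot (rel p red G B)) := rfl
  have h2 : Nat.card (WW p red G B) = Nat.card (Quot (rel p red G B)) :=
    Nat.card_congr (Equiv.ofBijective _ ⟨phi_inj p red G B, phi_surj p red G B⟩)
  have : ∀ q : Quotient (pSubgroupSetoid p K), Finite (TT p red G B q.out.1) :=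
    fun q => fin_TT p red G B _
  rw [h1, ← h2, card_sig (fun q : Quotient (pSubgroupSetoid p K) => TT p red G B q.out.1)
    (fun w => G ⊔ w.1.out.1 = ⊤)]
  refine finsum_congr fun q => ?_
  by_cases hq : G ⊔ q.out.1 = ⊤
  · rw [if_pos hq]
    exact Nat.card_congr (Equiv.subtypeUnivEquiv fun _ => hq)
  · rw [if_neg hq]
    have : IsEmpty {t : TT p red G B q.out.1 // G ⊔ q.out.1 = ⊤} := ⟨fun t => hq t.2⟩
    exact Nat.card_of_isEmpty

end wts

/-- CONV -/
theorem CONV : S_CONV := by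
  intro p _ F _ _ _ red K _ _ G _
  constructor
  · intro h B hB hB'
    rw [← orbI_eq, h B hB hB', orbN_eq]
  · intro h B hB hB'
    rw [orbI_eq, h B hB hB', orbN_eq]

end Pool.Agent.N285.ENCONV
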