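import Mathlib
import Pool.Agent.N604.MW.Stm10

/-!
# Project AD: `S_AAE` and `S_APAR`
-/

set_option autoImplicit false

namespace Pool.Agent.N285.AD

open MeasureTheory Pool.Agent.N604.MW

theorem aae : S_AAE := by
  intro s P hP
  rw [ae_all_iff]
  intro q
  by_cases hq : 1 ≤ q
  · have hq' : (q : ℝ) ≠ 0 := by
      have : (0 : ℝ) < q := by exact_mod_cast hq
      exact this.ne'
    have h := (Measure.quasiMeasurePreserving_smul (μ := (volume : Measure (Fin s → ℝ))) hq').ae hP
    filter_upwards [h] with α hα _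
    exact hα
  · filter_upwards with α h
    exact absurd h hq

lemma poly_le (r : ℕ) (hr : 24 ≤ r) : 16 * (r * r * (r + 1) * (r + 2)) ≤ 2 ^ r := by
  induction r, hr using Nat.le_induction with
  | base => norm_num
  | succ r hr ih =>
    rw [pow_succ]
    have h : (r + 1) * (r + 1) * (r + 1 + 1) * (r + 1 + 2) ≤ 2 * (r * r * (r + 1) * (r + 2)) := by
      have h1 : (r + 1) * (r + 3) ≤ 2 * (r * r) := by nlinarith
      calc (r + 1) * (r + 1) * (r + 1 + 1) * (r + 1 + 2)
          = ((r + 1) * (r + 3)) * ((r + 1) * (r + 2)) := by ring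
        _ ≤ (2 * (r * r)) * ((r + 1) * (r + 2)) := Nat.mul_le_mul_right _ h1
        _ = _ := by ring
    omega

theorem apar : S_APAR := by
  refine ⟨16, by norm_num, 2 ^ 50, ?_⟩
  intro k s hk hs
  have hk0 : k ≠ 0 := by
    rintro rfl
    simp at hk
  set r := Nat.log 2 k / 2 with hrdef
  have hlog : 50 ≤ Nat.log 2 k := Nat.le_log_of_pow_le (by norm_num) hk
  have hr : 25 ≤ r := by omega
  have h4 : 4 ^ r ≤ k := by
    have h1 : 2 ^ (2 * r) ≤ 2 ^ Nat.log 2 k := Nat.pow_le_pow_right (by norm_num) (by omega)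
    have h2 : 2 ^ Nat.log 2 k ≤ k := Nat.pow_log_le_self 2 hk0
    calc 4 ^ r = 2 ^ (2 * r) := by rw [pow_mul]; norm_num
      _ ≤ k := h1.trans h2
  have h5 : k < 2 ^ (4 * r) := by
    have h1 : k < 2 ^ (Nat.log 2 k + 1) := Nat.lt_pow_succ_log_self (by norm_num) k
    exact lt_of_lt_of_le h1 (Nat.pow_le_pow_right (by norm_num) (by omega))
  have hkR : (1 : ℝ) < k := by
    have : 1 < k := lt_of_lt_of_le (by norm_num) hk
    exact_mod_cast this
  have hLpos : 0 < Real.log k := Real.log_pos hkR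
  have hL : Real.log k ≤ 4 * r := by
    have h1 : (k : ℝ) ≤ 2 ^ (4 * r) := by exact_mod_cast h5.le
    have h2 : Real.log k ≤ Real.log ((2 : ℝ) ^ (4 * r)) :=
      Real.log_le_log (by linarith) h1
    rw [Real.log_pow] at h2
    have h3 : Real.log 2 ≤ 1 := by
      have := Real.log_two_lt_d9; linarith
    have h4 : ((4 * r : ℕ) : ℝ) * Real.log 2 ≤ ((4 * r : ℕ) : ℝ) * 1 :=
      mul_le_mul_of_nonneg_left h3 (Nat.cast_nonneg _)
    push_cast at h2 h4
    linarith
  have hpoly := poly_le r (by omega)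
  have hrR : (0 : ℝ) < r := by
    have : 0 < r := by omega
    exact_mod_cast this
  -- `s = k + t` with `r t ≥ 4 k`
  have hks : (k : ℝ) ≤ s := by
    have : 0 ≤ 16 * (k : ℝ) / Real.log k := by positivity
    linarith
  have hks' : k ≤ s := by exact_mod_cast hks
  obtain ⟨t, rfl⟩ := Nat.exists_eq_add_of_le hks'
  have ht : 4 * k ≤ r * t := by
    have h1 : 16 * (k : ℝ) / Real.log k ≤ t := by push_cast at hs; linarith
    have h2 : 16 * (k : ℝ) ≤ t * Real.log k := by
      rw [div_le_iff₀ hLpos] at h1; exact h1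
    have h3 : (t : ℝ) * Real.log k ≤ t * (4 * r) := mul_le_mul_of_nonneg_left hL (Nat.cast_nonneg _)
    have h6 : 4 * (k : ℝ) ≤ r * t := by nlinarith
    exact_mod_cast h6
  have hN : nr r = 16 * (r * (r + 2)) * 2 ^ r := by
    unfold nr; rw [pow_add]; ring
  set N := nr r with hNdef
  have h2r : 2 ^ r * 2 ^ r = 4 ^ r := by
    rw [← mul_pow]; norm_num
  have hkey : 2 * (r * N) * (r + 1) ≤ 2 * k := by
    have e : 2 * (r * N) * (r + 1) = 2 * (16 * (r * r * (r + 1) * (r + 2)) * 2 ^ r) := by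
      rw [hN]; ring
    rw [e]
    have h1 : 16 * (r * r * (r + 1) * (r + 2)) * 2 ^ r ≤ 2 ^ r * 2 ^ r :=
      Nat.mul_le_mul_right _ hpoly
    omega
  have hN96 : 96 ≤ N := by
    rw [hN]
    have h1 : 1 ≤ 2 ^ r := Nat.one_le_two_pow
    have h2 : 6 ≤ r * (r + 2) := by nlinarith
    nlinarith
  have hrr : r * r ≤ k := by
    have h1 : r * r * 1 * 1 ≤ r * r * (r + 1) * (r + 2) := by
      gcongr <;> omega
    have h2 : 2 ^ r ≤ 4 ^ r := Nat.pow_le_pow_left (by norm_num) r
    omega
  have h6r : 6 * r ≤ k := by nlinarith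
  refine ⟨r, r * N, by omega, by omega, h6r, ?_, ?_, ?_, ?_⟩
  · nlinarith
  · have : 0 < r * t := by omega
    have : 0 < t := Nat.pos_of_mul_pos_left this |> fun _ => by
      rcases Nat.eq_zero_or_pos t with h | h
      · subst h; omega
      · exact h
    omega
  · have h1 : (2 * (r * N) - r) * (r + 1) ≤ 2 * (r * N) * (r + 1) :=
      Nat.mul_le_mul_right _ (Nat.sub_le _ _)
    have h2 : r * (k + t) = r * k + r * t := by ring
    omega
  · have h1 : k + t - k = t := by omega
    rw [h1]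
    have h2 : 6 * (r * N) * r = 6 * ((r * r) * N) := by ring
    have h3 : (r * r) * N ≤ k * N := Nat.mul_le_mul_right _ hrr
    have h4' : 4 * (r * N) * t = 4 * ((r * t) * N) := by ring
    have h5' : 4 * k * N ≤ (r * t) * N := Nat.mul_le_mul_right _ ht
    have h6 : 3 * k * N = 3 * (k * N) := by ring
    have h7 : 4 * k * N = 4 * (k * N) := by ring
    have h8 : 5 * (k + 2) ≤ k * N := by nlinarith
    rw [h2, h4', h6]
    rw [h7] at h5'
    omega

end Pool.Agent.N285.AD
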