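import Pool.Agent.N988.ES.Stm
import Pool.Agent.N988.EC.BO

/-!
# Project ES (helper988), part SP: assembly
-/

set_option autoImplicit false

open MeasureTheory Set Filter
open scoped Topology
open Pool.Agent.N988.EA Pool.Agent.N988.EC Pool.Agent.N988.EP Pool.Agent.N988.ES

namespace Pool.Agent.N285.ES

lemma uf_nonneg (b : ℕ) (p : ℝ) (n m : ℕ) : 0 ≤ uf b p n m := by
  unfold uf
  refine Finset.sum_nonneg fun S _ => ?_
  split_ifs
  · positivity
  · exact le_rfl

lemma sum_nonempty (h3 : S_PARS) (b : ℕ) (hb : 2 ≤ b) (p : ℝ) (h0 : 0 < p) (h1 : p < 1)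
    (hp : 1 - (1 - p ^ 2) ^ b = p) (k : ℕ) :
    ∑ S : Finset (Edge b k), (if S.Nonempty then xc p S ^ 2 else 0) = p * (1 - p) := by
  classical
  obtain ⟨ha, hb'⟩ := h3 b k hb p h0 h1 hp
  have h : ∀ S : Finset (Edge b k), xc p S ^ 2 =
      (if S.Nonempty then xc p S ^ 2 else 0) + (if S = ∅ then p ^ 2 else 0) := by
    intro S
    by_cases hS : S = ∅
    · subst hS; simp [ha]
    · have := Finset.nonempty_iff_ne_empty.2 hS
      simp [hS, this]
  rw [Finset.sum_congr rfl fun S _ => h S, Finset.sum_add_distrib,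
    Finset.sum_ite_eq' Finset.univ (∅ : Finset (Edge b k)) (fun _ => p ^ 2)] at hb'
  simp only [Finset.mem_univ, if_true] at hb'
  linarith

lemma uf_le (h3 : S_PARS) (b : ℕ) (hb : 2 ≤ b) (p : ℝ) (h0 : 0 < p) (h1 : p < 1)
    (hp : 1 - (1 - p ^ 2) ^ b = p) (n m : ℕ) : uf b p n m ≤ p * (1 - p) := by
  rw [← sum_nonempty h3 b hb p h0 h1 hp (n + m)]
  unfold uf
  refine Finset.sum_le_sum fun S _ => ?_
  by_cases h : S.Nonempty
  · simp only [h, true_and, if_true]
    split_ifs
    · exact le_rfl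
    · positivity
  · simp [h]

theorem t_RATE (h1 : S_R1) (h2 : S_R2) (h3 : S_PARS) : S_RATE := by
  intro b hb p h0 hp1 hp
  obtain ⟨r, hr0, hr1, hr⟩ := h2 b hb p h0 hp1 hp
  refine ⟨r, hr0, hr1, fun n m => ?_⟩
  have key : ∀ m, uf b p n m ≤ p * (1 - p) * r ^ m := by
    intro m
    induction m with
    | zero => simpa using uf_le h3 b hb p h0 hp1 hp n 0
    | succ m ih =>
      have a1 := h1 b hb p h0 hp1 hp n m
      have a2 := hr (uf b p n m) (uf_nonneg b p n m) (uf_le h3 b hb p h0 hp1 hp n m)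
      calc uf b p n (m + 1) ≤ _ := a1
        _ ≤ r * uf b p n m := a2
        _ ≤ r * (p * (1 - p) * r ^ m) := mul_le_mul_of_nonneg_left ih hr0
        _ = _ := by ring
  exact key m

lemma int_chi {p : ℝ} (h0 : 0 < p) (h1 : p < 1) : ∫ x, chi p x ∂(coin (1 - p)) = 0 := by
  have hp1 : 0 < 1 - p := by linarith
  have hI : ∀ μ : Measure Bool, IsFiniteMeasure μ → Integrable (chi p) μ := by
    intro μ _
    exact Integrable.of_finite
  unfold coin
  have f1 : IsFiniteMeasure (ENNReal.ofReal (1 - p) • Measure.dirac true : Measure Bool) :=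
    ⟨by simp⟩
  have f2 : IsFiniteMeasure (ENNReal.ofReal (1 - (1 - p)) • Measure.dirac false : Measure Bool) :=
    ⟨by simp⟩
  rw [integral_add_measure (hI _ f1) (hI _ f2), integral_smul_measure, integral_smul_measure,
    integral_dirac, integral_dirac]
  rw [ENNReal.toReal_ofReal hp1.le, ENNReal.toReal_ofReal (by linarith)]
  simp only [chi, if_true, smul_eq_mul, Bool.false_eq_true, if_false]
  rw [Real.sqrt_div h0.le, Real.sqrt_div hp1.le]
  have ha : 0 < Real.sqrt p := Real.sqrt_pos.2 h0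
  have hc : 0 < Real.sqrt (1 - p) := Real.sqrt_pos.2 hp1
  have ha2 : Real.sqrt p ^ 2 = p := Real.sq_sqrt h0.le
  have hc2 : Real.sqrt (1 - p) ^ 2 = 1 - p := Real.sq_sqrt hp1.le
  field_simp
  rw [ha2, hc2]
  ring

lemma int_prod {b n : ℕ} {p : ℝ} (h0 : 0 < p) (h1 : p < 1) (S : Finset (Edge b n)) :
    ∫ w, ∏ e ∈ S, chi p (w e) ∂(iid (coin (1 - p)) b n) =
      open Classical in if S = ∅ then 1 else 0 := by
  classical
  haveI := coin_prob (p := 1 - p) (by linarith) (by linarith)
  by_cases hS : S = ∅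
  · subst hS; simp
  · rw [if_neg hS]
    have h : ∀ w : Edge b n → Bool, ∏ e ∈ S, chi p (w e) =
        ∏ e, (fun (e : Edge b n) (x : Bool) => if e ∈ S then chi p x else 1) e (w e) := by
      intro w
      simp only
      rw [Finset.prod_ite_mem, Finset.univ_inter]
    simp_rw [h]
    unfold iid
    rw [integral_fintype_prod_eq_prod (μ := fun _ : Edge b n => coin (1 - p))
      (fun (e : Edge b n) (x : Bool) => if e ∈ S then chi p x else 1)]
    obtain ⟨e, he⟩ := Finset.nonempty_iff_ne_empty.2 hS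
    refine Finset.prod_eq_zero (Finset.mem_univ e) ?_
    simp only [he, if_true]
    exact int_chi h0 h1

lemma coef_eq {b n : ℕ} {p : ℝ} (h0 : 0 < p) (h1 : p < 1) (S : Finset (Edge b n)) :
    coef p S = 2 * xc p S - (open Classical in if S = ∅ then 1 else 0) := by
  haveI := coin_prob (p := 1 - p) (by linarith) (by linarith)
  rw [← int_prod h0 h1 S]
  unfold coef xc
  rw [← integral_const_mul, ← integral_sub (Integrable.of_finite) (Integrable.of_finite)]
  refine integral_congr_ae (Filter.Eventually.of_forall fun w => ?_)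
  simp only [cross]
  split_ifs <;> ring

theorem t_SP (h1 : S_PARS) (h2 : S_RATE) (h3 : S_NF) (h4 : S_PV) : S_SP := by
  classical
  intro b hb
  obtain ⟨p, hp0, hp1, hfix, hiter, -⟩ := Pool.Agent.N283.EP.t_FIX b hb
  have hb1 : 1 ≤ b := by omega
  obtain ⟨hY, -, -⟩ := k_LOW b hb1
  have hYset : ∀ (n : ℕ), {w : Edge b n → Bool | across w = 0} = {w | Y n w = 0} := by
    intro n
    ext w
    simp only [Set.mem_ofPred_eq, hY]
  have hx : ∀ p' : ℝ, 0 ≤ p' → p' ≤ 1 →
      (fun n : ℕ => (iid (coin (1 - p')) b n).real {w | across w = 0}) 0 = p' ∧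
      ∀ n : ℕ, (fun n : ℕ => (iid (coin (1 - p')) b n).real {w | across w = 0}) (n + 1) =
        1 - (1 - (fun n : ℕ => (iid (coin (1 - p')) b n).real {w | across w = 0}) n ^ 2) ^ b := by
    intro p' h0 h1
    obtain ⟨ha, hb'⟩ := k_LAW b hb1 p' h0 h1
    refine ⟨?_, fun n => ?_⟩
    · show (iid (coin (1 - p')) b 0).real {w | across w = 0} = p'
      rw [hYset]
      exact ha
    · show (iid (coin (1 - p')) b (n + 1)).real {w | across w = 0} =
        1 - (1 - (iid (coin (1 - p')) b n).real {w | across w = 0} ^ 2) ^ b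
      rw [hYset, hYset]
      exact (hb' n).1
  refine ⟨p, hp0, hp1, fun p' h0 hlt => ?_, fun p' hlt h1' => ?_, h4 b hb p hp0 hp1 hfix,
    fun n m w => h3 b hb1 n m w, fun n => ?_, ?_⟩
  · obtain ⟨ha, hb'⟩ := hx p' h0 (hlt.le.trans hp1.le)
    exact (hiter _ (h0.trans_eq ha.symm) hb').1 (lt_of_eq_of_lt ha hlt)
  · obtain ⟨ha, hb'⟩ := hx p' (hp0.le.trans hlt.le) h1'
    exact (hiter _ ((hp0.le.trans hlt.le).trans_eq ha.symm) hb').2 (lt_of_lt_of_eq hlt ha.symm)
      (le_of_eq_of_le ha h1')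
  · obtain ⟨ha, hsum⟩ := h1 b n hb p hp0 hp1 hfix
    have he : spec p (∅ : Finset (Edge b n)) = (2 * p - 1) ^ 2 := by
      unfold spec
      rw [coef_eq hp0 hp1, if_pos rfl, ha]
    refine ⟨?_, he⟩
    have hs : ∀ S : Finset (Edge b n), spec p S = 4 * (if S.Nonempty then xc p S ^ 2 else 0) +
        (if S = ∅ then (2 * p - 1) ^ 2 else 0) := by
      intro S
      by_cases hS : S = ∅
      · subst hS; rw [he]; simp
      · have hne := Finset.nonempty_iff_ne_empty.2 hS
        unfold spec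
        rw [coef_eq hp0 hp1, if_neg hS, if_pos hne, if_neg hS]
        ring
    rw [Finset.sum_congr rfl fun S _ => hs S, Finset.sum_add_distrib, ← Finset.mul_sum,
      sum_nonempty h1 b hb p hp0 hp1 hfix n,
      Finset.sum_ite_eq' Finset.univ (∅ : Finset (Edge b n)) (fun _ => (2 * p - 1) ^ 2)]
    simp only [Finset.mem_univ, if_true]
    ring
  · obtain ⟨r, hr0, hr1, hr⟩ := h2 b hb p hp0 hp1 hfix
    refine ⟨r, hr0, hr1, fun n m => ?_⟩
    have hs : ∀ S : Finset (Edge b (n + m)),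
        (if S.Nonempty ∧ ¬ Fork m (S : Set (Edge b (n + m))) then spec p S else 0) =
        4 * (if S.Nonempty ∧ ¬ Fork m (S : Set (Edge b (n + m))) then xc p S ^ 2 else 0) := by
      intro S
      split_ifs with h
      · unfold spec
        rw [coef_eq hp0 hp1, if_neg (Finset.nonempty_iff_ne_empty.1 h.1)]
        ring
      · ring
    rw [Finset.sum_congr rfl fun S _ => hs S, ← Finset.mul_sum]
    have h5 := hr n m
    have h6 : 4 * (p * (1 - p)) ≤ 1 := by nlinarith [sq_nonneg (2 * p - 1)]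
    have h7 : 0 ≤ r ^ m := pow_nonneg hr0 m
    calc _ ≤ 4 * (p * (1 - p) * r ^ m) := mul_le_mul_of_nonneg_left h5 (by norm_num)
      _ = (4 * (p * (1 - p))) * r ^ m := by ring
      _ ≤ 1 * r ^ m := mul_le_mul_of_nonneg_right h6 h7
      _ = r ^ m := one_mul _

end Pool.Agent.N285.ES
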