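import Pool.Agent.N894.WF.Defs

/-!
# Project WF (helper894), leaf LIN: uniform local-to-global principle with bounded solutions
-/

set_option autoImplicit false

namespace Pool.Agent.N285.WF

open N894.WF

theorem fin_comb {I : Type} (S : Set I) (hS : S.Finite) (Q : I → ℕ → ℕ → Prop)
    (hmono : ∀ s m L m' L', Q s m L → m ∣ m' → L ≤ L' → Q s m' L')
    (hex : ∀ s ∈ S, ∃ m L, 0 < m ∧ Q s m L) : ∃ m L, 0 < m ∧ ∀ s ∈ S, Q s m L := by
  classical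
  induction S, hS using Set.Finite.induction_on with
  | empty => exact ⟨1, 0, one_pos, fun s hs => absurd hs (Set.notMem_empty s)⟩
  | @insert a S _ _ ih =>
    obtain ⟨m, L, hm, h⟩ := ih fun s hs => hex s (Set.mem_insert_of_mem _ hs)
    obtain ⟨m1, L1, hm1, h1⟩ := hex a (Set.mem_insert _ _)
    refine ⟨m * m1, L + L1, Nat.mul_pos hm hm1, fun s hs => ?_⟩
    rcases Set.mem_insert_iff.1 hs with rfl | hs
    · exact hmono _ _ _ _ _ h1 (dvd_mul_left _ _) (Nat.le_add_left _ _)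
    · exact hmono _ _ _ _ _ (h s hs) (dvd_mul_right _ _) (Nat.le_add_right _ _)

/-- solvability modulo `m` gives a solution bounded by `L` -/
def Q1 {n r : ℕ} (s : (Fin n → Fin r → ℤ) × (Fin r → ℤ)) (m L : ℕ) : Prop :=
  (∃ e : Fin n → ℤ, ∀ x, (m : ℤ) ∣ (∑ i, e i * s.1 i x) - s.2 x) →
    ∃ lam : Fin n → ℤ, (∀ i, |lam i| ≤ L) ∧ ∀ x, ∑ i, lam i * s.1 i x = s.2 x

/-- bounded systems -/
def Box (B n r : ℕ) : Set ((Fin n → Fin r → ℤ) × (Fin r → ℤ)) :=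
  {s | (∀ i x, |s.1 i x| ≤ B) ∧ ∀ x, |s.2 x| ≤ B}

theorem box_finite (B n r : ℕ) : (Box B n r).Finite := by
  classical
  have h : Box B n r ⊆ Set.Icc (((fun _ _ => -(B : ℤ), fun _ => -(B : ℤ)) :
      (Fin n → Fin r → ℤ) × (Fin r → ℤ))) (fun _ _ => (B : ℤ), fun _ => (B : ℤ)) := by
    intro s hs
    refine ⟨⟨fun i x => ?_, fun x => ?_⟩, ⟨fun i x => ?_, fun x => ?_⟩⟩
    · exact (abs_le.1 (hs.1 i x)).1
    · exact (abs_le.1 (hs.2 x)).1
    · exact (abs_le.1 (hs.1 i x)).2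
    · exact (abs_le.1 (hs.2 x)).2
  exact (Set.finite_Icc _ _).subset h

theorem Q1_mono {n r : ℕ} (s : (Fin n → Fin r → ℤ) × (Fin r → ℤ)) (m L m' L' : ℕ)
    (h : Q1 s m L) (hm : m ∣ m') (hL : L ≤ L') : Q1 s m' L' := by
  rintro ⟨e, he⟩
  obtain ⟨lam, h1, h2⟩ := h ⟨e, fun x => (Int.natCast_dvd_natCast.2 hm).trans (he x)⟩
  exact ⟨lam, fun i => (h1 i).trans (by exact_mod_cast hL), h2⟩

theorem Q1_ex (hLIN : LeafLIN1) {n r : ℕ} (s : (Fin n → Fin r → ℤ) × (Fin r → ℤ)) :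
    ∃ m L, 0 < m ∧ Q1 s m L := by
  by_cases hs : ∃ e : Fin n → ℤ, ∀ x, ∑ i, e i * s.1 i x = s.2 x
  · obtain ⟨e, he⟩ := hs
    refine ⟨1, ∑ i, (e i).natAbs, one_pos, fun _ => ⟨e, fun i => ?_, he⟩⟩
    have h1 : (e i).natAbs ≤ ∑ i, (e i).natAbs :=
      Finset.single_le_sum (f := fun i => (e i).natAbs) (fun _ _ => Nat.zero_le _)
        (Finset.mem_univ i)
    rw [Int.abs_eq_natAbs]
    exact_mod_cast h1
  · have h1 : ∃ m : ℕ, 0 < m ∧
        ¬ ∃ e : Fin n → ℤ, ∀ x, (m : ℤ) ∣ (∑ i, e i * s.1 i x) - s.2 x := by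
      by_contra hcon
      push Not at hcon
      exact hs (hLIN n r s.1 s.2 hcon)
    obtain ⟨m, hm, hm2⟩ := h1
    exact ⟨m, 0, hm, fun h => absurd h hm2⟩

theorem t_LIN : N894.WF.LeafLIN1 → N894.WF.LeafLIN := by
  classical
  intro hLIN K R B
  obtain ⟨m, L, hm, hmL⟩ := fin_comb (I := ℕ × ℕ) (Set.Iic K ×ˢ Set.Iic R)
    ((Set.finite_Iic K).prod (Set.finite_Iic R))
    (fun q m L => ∀ s ∈ Box B q.1 q.2, Q1 s m L)
    (fun q m L m' L' h h1 h2 s hs => Q1_mono s m L m' L' (h s hs) h1 h2)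
    (fun q _ => fin_comb (Box B q.1 q.2) (box_finite B q.1 q.2) Q1 Q1_mono
      fun s _ => Q1_ex hLIN s)
  refine ⟨m, L, hm, ?_⟩
  intro ι X _ hι A v Y hY hout hB hsol
  obtain ⟨e, he⟩ := hsol
  let e1 : ι ≃ Fin (Fintype.card ι) := Fintype.equivFin ι
  let e2 : {x // x ∈ Y} ≃ Fin Y.card := Y.equivFin
  have hq := hmL (Fintype.card ι, Y.card) ⟨hι, hY⟩
    ((fun i x => A (e1.symm i) (e2.symm x).1), fun x => v (e2.symm x).1)
    ⟨fun i x => (hB _).2 _, fun x => (hB _).1⟩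
    ⟨fun i => e (e1.symm i), fun x => by
      have h1 := he (e2.symm x).1
      have h2 : ∑ i, e (e1.symm i) * A (e1.symm i) (e2.symm x).1 =
          ∑ i, e i * A i (e2.symm x).1 :=
        Equiv.sum_comp e1.symm (fun i => e i * A i (e2.symm x).1)
      show (m : ℤ) ∣ (∑ i, e (e1.symm i) * A (e1.symm i) (e2.symm x).1) - v (e2.symm x).1
      rw [h2]
      exact h1⟩
  obtain ⟨lam, h1, h2⟩ := hq
  refine ⟨fun i => lam (e1 i), fun i => h1 _, fun x => ?_⟩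
  by_cases hx : x ∈ Y
  · have h3 := h2 (e2 ⟨x, hx⟩)
    simp only [Equiv.symm_apply_apply] at h3
    rw [← h3]
    have h4 := Equiv.sum_comp e1 (fun i => lam i * A (e1.symm i) x)
    rw [← h4]
    refine Finset.sum_congr rfl fun i _ => ?_
    rw [e1.symm_apply_apply]
  · rw [(hout x hx).1]
    refine Finset.sum_eq_zero fun i _ => ?_
    rw [(hout x hx).2 i, mul_zero]

end Pool.Agent.N285.WF
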